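import Pool.Agent.U569.APL.MonoT
import Pool.Agent.U569.APL.MonoPtd

/-!
# General type and geometric hyperbolicity for the tuples of monomials near almost all members of families formed from arbitrary sets

Let `I 1, …, I s` be nonempty sets of variables among `x_0, …, x_n`, and `r = ∑ (|I i| - 1)` (`fdim I`). The tuples of monomials
`a 1, …, a s` of degree `d`, `a i` in the variables from `I i`, are given by `r + 1` coordinates: the degree `d`, and the exponents in
`a i` of all the variables from `I i` but one. The starting result `AlmostAllMonomials` says that the proportion of the tuples of
degree `d` with the property `Good` below tends to `1` for `d → ∞`. Here: for all `ε > 0`, all large moduli `q` and all families of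
vectors of `r + 1` residues modulo `q` with small Fourier coefficients (only finitely many of them need to be small,
`SmallCoefficients L η`, where `L` and `η` depend on `ε` and on the `I i` only), and for all but at most `ε |S|` members
`v = c + y` of the family `S`, the property `Good` holds for ALL tuples of monomials of all degrees whose coordinates are at a
distance of at most `κ |v 0|` from those of `v` (`v 0` stands for the degree), where `κ > 0` depends on `ε` and on the `I i` only:
a cube of positive relative size around the member (`NearMost`).

Examples (`FlatExamples`), with Fourier coefficients at most `P ^ (-δ / 8)` modulo a large prime `P`: the values of bilinear maps on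
ARBITRARY sets, all products of elements of two ARBITRARY sets in the field of `P ^ (r + 1)` elements, both plus arbitrary functions
of the one and of the other element, polynomials on products of ARBITRARY sets, polynomials on subgroups.

`Good`: over all algebraically closed fields of characteristic zero, for the irreducible components of all the projective varieties given
by linear combinations of the monomials and of the `x_j ^ d`, general type, pseudo-geometric hyperbolicity and the conditions of
the starting file are equivalent, with the combinatorial criterion for hypersurfaces, and a criterion for all subvarieties to be of
general type and geometrically hyperbolic.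

Proof: the tuples are good if certain determinants, which are affine in each of the free exponents, are not small. The number of
the points of a grid where these functions are small is bounded in `Pool/Agent/U449/BV/PW.lean` (helper449), and each small cube
contains few members of the family (`Pool/Agent/U569/APL/Box.lean`, `Mono.lean`, `MonoT.lean`).
-/

set_option autoImplicit false

namespace Pool.Agent.Results.MP_5b1cbc_ag.ArbitrarySets

open FF MvPolynomial Pool.Agent.W602.GT Pool.Agent.R869.Wd
open Pool.Agent.W602.RG (PseudoGeomHyp PointedMaps)
open Pool.Agent.Results.MP_5b1cbc_ag.AlmostAllMonomials
open Pool.Agent.U569.APL (NearMost FlatExamples nearMost_typI flatExamples)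

/-- The properties of the starting result: over all algebraically closed fields `k` of characteristic zero, `Equivalent F` for all
projective varieties given by `m` linear combinations `F e` of the monomials `a i` and of the `x_j ^ d`; `LooseCriterion F` for all
hypersurfaces given by such a linear combination (with arbitrary coefficients); and, if the `I i` are well spread, with respect
to `m`, on all sets of variables, and any `m` of the coefficient vectors are linearly independent, then all closed subvarieties `V`
of positive dimension are of general type, and there are finitely many morphisms from each pointed curve to `V` with a given value
at the marked point. -/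
def Good {n s : ℕ} (I : Fin s → Finset (Fin (n + 1))) (d : ℕ) (a : Fin s → (Fin (n + 1) →₀ ℕ)) : Prop :=
  ∀ (k : Type) [Field k] [IsAlgClosed k] [CharZero k],
    (∀ (m : ℕ) (F : Fin m → MvPolynomial (Fin (n + 1)) k), (∀ e, (F e).support ⊆ withPowers d a) → Equivalent F) ∧
    (∀ F : MvPolynomial (Fin (n + 1)) k, F.support ⊆ withPowers d a → LooseCriterion F) ∧
    ∀ (m : ℕ) (F : Fin m → MvPolynomial (Fin (n + 1)) k), (∀ e, (F e).support ⊆ withPowers d a) →
      GenCoeffs F (withPowers d a) → (∀ J, Spread I m J) →
      ∀ (K : Type) [Field K] [Algebra k K] (w : ℕ) (y : Fin (n + 1) → K), 1 ≤ w →
        SubVar F K w y → GeneralType k K w ∧
        ∀ (L : Type) [Field L] [Algebra k L] [IsFF k L] (c : Place k L), ∀ x ∈ VarPts k y,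
          (PointedMaps y c x).Finite

theorem good_of_typ {n s : ℕ} {I : Fin s → Finset (Fin (n + 1))} {d : ℕ} {a : Fin s → (Fin (n + 1) →₀ ℕ)}
    (hty : TypI I d a) : Good I d a := Pool.Agent.U569.APL.good_mono hty

/-- **Theorem.** For all sets `I i` of variables the property `Good` holds for ALL tuples of monomials near almost all members of
the families with small Fourier coefficients (`NearMost`); for all `R`, families of vectors of `R` residues with Fourier
coefficients at most `q ^ (-κ)` have this property for all large `q`, and the families formed from arbitrary sets are such
families (`FlatExamples`). -/
theorem result : (∀ (n s : ℕ) (I : Fin s → Finset (Fin (n + 1))), NearMost I (Good I)) ∧ ∀ R : ℕ, FlatExamples R :=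
  ⟨fun _ _ _ => nearMost_typI fun _ _ h => good_of_typ h, flatExamples⟩

end Pool.Agent.Results.MP_5b1cbc_ag.ArbitrarySets
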