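import Pool.Agent.U723.GT.PsdAll

/-!
MP_5b1cbc_ag, Q1, for all projective varieties which carry a rational map of the projective line with many
preperiodic points and a generically finite moduli map.

`k` is any algebraically closed field of characteristic zero, `X` an integral projective variety over `k`,
given by its function field `K` and the homogeneous coordinates `x` of its generic point (`x ≠ 0`;
`coords k x = ⊤`: the ratios of the coordinates generate `K` over `k`).

`ManyPrep k d n p q` (`Pool/Agent/Q103/EC/Mxv.lean`): `f = p / q` is a rational map of the projective line over
`K` of degree `d` (a family of rational maps over an open subset of `X`) with at least `n` preperiodic points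
in `P^1(K)`, and the moduli map `X ⇢ M_d` is generically finite: if `f` is conjugate over an algebraic closure
of `K` to a map with coefficients algebraic over a field between `k` and `K`, then `K` is algebraic over
this field.

`AlgHypOff k x R` (`Pool/Agent/U723/GT/Psd.lean`): for the proper closed subset `Z = {R = 0}` of `X`

* `sub`: all closed subvarieties of `X` of positive dimension which are not contained in `Z` (in particular
  `X`, if its dimension is positive) are of general type;
* `pointed`: for all curves `C`, all points `c` of `C` and all points `a` of `X` outside of `Z` there are only
  finitely many morphisms from `C` to `X` which map `c` to `a` (`PointedMaps x c a`; morphisms from an open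
  subset of a smooth projective curve to the projective variety `X` extend to the curve);
* `degree`: there is `A` such that all morphisms from curves of genus `g` to `X` whose image is not contained
  in `Z` have degree at most `A max(2 g - 2, 0)`.

Here `OnVar k x z`: `z` is a point of `X` over a field extension (the generic point of a closed subvariety if
`coords k z = ⊤`); `GeneralType k E w`: the transcendence degree of `E` is `w` and for some `m > 0` there are
`w + 1` rational `m`-canonical forms, regular at all prime divisors of all models of `E`, whose ratios are
of transcendence degree `w`; `PseudoGeomHyp k x` (`Pool/Agent/W602/RG/TB.lean`): the property of the problem;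
`canDeg k E = 2 g - 2`, `pht k f` the degree of the morphism `f`.

Theorem. For every `d ≥ 2` there is `B` such that

(1) for all `k` and all projective varieties `X` as above (of any dimension) with `ManyPrep k d B p q`: `X` is
of general type (if its dimension is positive) and pseudo-geometrically hyperbolic, so Q1 holds for `X`, and
the same is true for all projective varieties `X'` with a dominant generically finite rational map to `X`
(function field `K'`, algebraic over `K`), with the same `B`; moreover for each `X'` there is one exceptional
set `Z'` for the subvarieties, the pointed curves and the degrees of curves;

(2) there are such varieties over all `k` and for all `n ≥ 3`: there is a variety of dimension `2 d - 2` with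
`ManyPrep k d n p q` (components of the moduli spaces of maps with a marked point of exact period `n`).
-/

set_option autoImplicit false

namespace Pool.Agent.Results.MP_5b1cbc_ag.ManyPreperiodicPointed

open Polynomial
open Pool.Agent.W602.GT (coords GeneralType)
open Pool.Agent.W602.RG (PseudoGeomHyp)
open Pool.Agent.Q103.EC (ManyPrep)
open Pool.Agent.U723.GT (AlgHypOff)

/-- The projective variety `X` over `k` with the generic point `x` (function field `K`) is of general type, if
its dimension is positive, pseudo-geometrically hyperbolic, and has one exceptional set for the
subvarieties, the pointed curves and the degrees of curves. -/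
def Hyperbolic (k : Type) [Field k] {K : Type} [Field K] [Algebra k K] {M : ℕ}
    (x : Fin (M + 1) → K) : Prop :=
  (∀ w : ℕ, 1 ≤ w → Algebra.trdeg k K = w → GeneralType k K w) ∧ PseudoGeomHyp k x ∧
    ∃ R, AlgHypOff k x R

/-- See the explanation at the beginning of the file. -/
theorem result (d : ℕ) (hd : 2 ≤ d) :
    (∃ B : ℕ, ∀ (k K : Type) [Field k] [IsAlgClosed k] [CharZero k] [Field K] [Algebra k K]
      (p q : K[X]), ManyPrep k d B p q →
      ∀ (K' : Type) [Field K'] [Algebra k K'] [Algebra K K'] [IsScalarTower k K K']
        [Algebra.IsAlgebraic K K'] (M : ℕ) (x : Fin (M + 1) → K'), x ≠ 0 → coords k x = ⊤ →
        Hyperbolic k x) ∧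
    ∀ (k : Type) [Field k] [CharZero k] (n : ℕ), 3 ≤ n →
      ∃ (K : Type) (_ : Field K) (_ : Algebra k K) (p q : K[X]), ManyPrep k d n p q ∧
        Algebra.trdeg k K = (2 * d - 2 : ℕ) :=
  ⟨Pool.Agent.U723.GT.pseudo_all d hd, Pool.Agent.U723.GT.exists_fld d hd⟩

end Pool.Agent.Results.MP_5b1cbc_ag.ManyPreperiodicPointed
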