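import Pool.Agent.U207.QH.Pgh

/-!
# General type and pseudo-geometric hyperbolicity: intersections of quadrics suffice

Over `k = ℂ`.

(1) Let `X = V(S)` be any projective variety in `P^n`, `n ≥ 1` (any dimension and any singularities),
given by forms of degree at most `d`, `d ≥ 3`, and `v : P^n → P^N` the Veronese embedding of degree `d`.
For all `c ≥ (2 (N + 1)^3 + 6 N + 5)^2` there are quadratic forms `P_i` and linear forms `ℓ_i`, `i < c`,
such that the covering of `P^N` with group `(ℤ/2)^c`

`Y : x_i^2 = P_i(h_0, …, h_N), i < c`, in `P^{N+c}`,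

is a smooth complete intersection of `c` quadrics, `P_i = ℓ_i^2` on `v(X)`, so that `Y` contains the
`2^c` copies `x_i = ± ℓ_i(h)`, `h ∈ v(X)`, of `X`. For all pointed curves `(C, c)` and all points `y` of `Y`
outside of these copies there are only finitely many morphisms from `(C, c)` to `(Y, y)`. Every closed
subvariety of `Y` of positive dimension is contained in one of the copies or is both of general type
and pseudo-geometrically hyperbolic. So the Zariski closure of the union of all closed subvarieties of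
positive dimension which are not pseudo-geometrically hyperbolic is determined by that of `X`, and
the same holds for the subvarieties which are not of general type.

(2) Let `E N` be infinite sets of numbers. Consider these smooth `Y` with `c ∈ E N`.
Q1 for all irreducible projective varieties (smooth or not) holds if and only if for all `Y` the two
Zariski closures agree, and no irreducible component of positive dimension is of general type.
All varieties of general type are pseudo-geometrically hyperbolic if and only if for all `Y` no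
irreducible component of positive dimension of the first closure is of general type.
All pseudo-geometrically hyperbolic varieties are of general type if and only if for all `Y` the
first closure contains the second.

Proof. See `Pool/Agent/U207/QC` and `Pool/Agent/U207/QH`. `v(X)` is given by quadratic forms whose
Jacobian matrix has large rank, `P_i = (∑_j a_i^j h_j)^2 + ∑_t a_i^{B + κ t} Q_t(h)`, where the `Q_t` are
generic combinations of these forms and the `a_i` are generic numbers. `P_i(h)` is the value at the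
node `a_i` of a polynomial `F_h` in one variable with coefficients depending on `h`. Along an algebraic
curve of genus `g`, the method of Büchi's problem (Vojta, Pasten) shows that `F_h = q^2 H`, where the
ratios of the values of `H` have degree at most a constant times `max (2 g - 2, 0)`. An argument with the
derivative shows that the `h_i / h_0` are algebraic over the field generated by these ratios unless all
`Q_t(h)` are zero, and Noetherian induction gives the bound for their degrees, uniformly for all curves.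
If infinitely many maps from a pointed curve to `(Y, y)` were not in the copies, then by bend and break
there would be a rational curve through `y` in `Y`; by the degree bound it is in a copy of `X`.
A closed subvariety of a pseudo-geometrically hyperbolic variety which is not contained in the
exceptional set is pseudo-geometrically hyperbolic, so `X` is pseudo-geometrically hyperbolic if and only
if the closure of the union of its subvarieties which are not is a proper subset.
-/

set_option autoImplicit false

namespace Pool.Agent.Results.MP_5b1cbc_ag.QuadricCoversSuffice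

open MvPolynomial FF
open Pool.Agent.W602.GT (SubVar GeneralType)
open Pool.Agent.W602.RG (HasValue PseudoGeomHyp)
open Pool.Agent.N254.SQ (IsForm Eqs Component OnSpecial Monomials veronese)
open Pool.Agent.U207.QC (hI xI coverForm coverEqs SmoothCover Signs onSheet)
open scoped LinearAlgebra.Projectivization

/-- Q1 for all irreducible projective varieties of positive dimension: the irreducible closed set in
`P^n` with function field `L` and generic point `y` is of general type if and only if it is
pseudo-geometrically hyperbolic -/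
def Lang : Prop :=
  ∀ (n : ℕ) (L : Type) [Field L] [Algebra ℂ L] (w : ℕ) (y : Fin (n + 1) → L), 1 ≤ w →
    SubVar (fun p : (∅ : Set (MvPolynomial (Fin (n + 1)) ℂ)) => (p : MvPolynomial (Fin (n + 1)) ℂ))
      L w y → (GeneralType ℂ L w ↔ PseudoGeomHyp ℂ y)

/-- varieties of general type are pseudo-geometrically hyperbolic -/
def LangOne : Prop :=
  ∀ (n : ℕ) (L : Type) [Field L] [Algebra ℂ L] (w : ℕ) (y : Fin (n + 1) → L), 1 ≤ w →
    SubVar (fun p : (∅ : Set (MvPolynomial (Fin (n + 1)) ℂ)) => (p : MvPolynomial (Fin (n + 1)) ℂ))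
      L w y → GeneralType ℂ L w → PseudoGeomHyp ℂ y

/-- pseudo-geometrically hyperbolic varieties are of general type -/
def LangTwo : Prop :=
  ∀ (n : ℕ) (L : Type) [Field L] [Algebra ℂ L] (w : ℕ) (y : Fin (n + 1) → L), 1 ≤ w →
    SubVar (fun p : (∅ : Set (MvPolynomial (Fin (n + 1)) ℂ)) => (p : MvPolynomial (Fin (n + 1)) ℂ))
      L w y → PseudoGeomHyp ℂ y → GeneralType ℂ L w

/-- `G` vanishes on all closed subvarieties of positive dimension of `V(S)` which are not
pseudo-geometrically hyperbolic -/
def OnPgh {n : ℕ} (S : Set (MvPolynomial (Fin (n + 1)) ℂ)) (G : MvPolynomial (Fin (n + 1)) ℂ) :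
    Prop :=
  ∀ (L : Type) [Field L] [Algebra ℂ L] (w : ℕ) (y : Fin (n + 1) → L), 1 ≤ w →
    SubVar (fun p : S => (p : MvPolynomial (Fin (n + 1)) ℂ)) L w y →
    PseudoGeomHyp ℂ y ∨ aeval y G = 0

/-- no irreducible component of positive dimension of the closure of the union of the closed
subvarieties of `Y` which are not pseudo-geometrically hyperbolic is of general type -/
def NoComponent {N c : ℕ} (P : Fin c → MvPolynomial (Fin (N + 1)) ℂ) : Prop :=
  ∀ (L : Type) [Field L] [Algebra ℂ L] (w : ℕ) (y : Fin (N + c + 1) → L), 1 ≤ w →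
    SubVar (coverForm P) L w y → GeneralType ℂ L w → ¬ Component (OnPgh (coverEqs P)) y

section proof

open Pool.Agent.U207.QC
open Pool.Agent.U207.QH
open Pool.Agent.N254.SQ (NotIn)

variable {n : ℕ}

theorem pgh_one (S : Set (MvPolynomial (Fin (n + 1)) ℂ)) (G : MvPolynomial (Fin (n + 1)) ℂ) :
    OnPghQ S {1} G ↔ OnPgh S G :=
  ⟨fun h L _ _ w y hw hy => h L w y hw hy (notin_one y), fun h L _ _ w y hw hy _ => h L w y hw hy⟩

/-- pseudo-geometric hyperbolicity and exceptional sets -/
theorem pgh_iff {L : Type} [Field L] [Algebra ℂ L] {w : ℕ} {y : Fin (n + 1) → L} (hw : 1 ≤ w)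
    (hy : SubVar (fun p : (∅ : Set (MvPolynomial (Fin (n + 1)) ℂ)) =>
      (p : MvPolynomial (Fin (n + 1)) ℂ)) L w y) :
    PseudoGeomHyp ℂ y ↔ ∃ G : MvPolynomial (Fin (n + 1)) ℂ, IsForm G ∧ aeval y G ≠ 0 ∧
      OnPghQ (Eqs y) {1} G := by
  constructor
  · rintro ⟨G, hG, hGy, hfin⟩
    refine ⟨G, hG, hGy, fun L' _ _ w' y' _ hy' _ => ?_⟩
    by_cases h0 : aeval y' G = 0
    · exact Or.inr h0
    · exact Or.inl (pgh_mono (fun H hH hHy => hy'.mem ⟨H, hH, hHy⟩) hG hfin h0)
  · rintro ⟨G, hG, hGy, h⟩
    exact (h L w y hw ⟨hy.ne, fun p => p.2.2, hy.gen, hy.dim⟩ (notin_one y)).resolve_right hGy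

end proof

open Pool.Agent.U207.QC in
open Pool.Agent.U207.QH in
theorem result :
    (∀ n d : ℕ, 1 ≤ n → 3 ≤ d → ∃ (N : ℕ) (m : Fin (N + 1) → Fin (n + 1) → ℕ),
      Monomials n N d m ∧ ∀ c, (2 * (N + 1) ^ 3 + 6 * N + 5) ^ 2 ≤ c →
        ∀ S : Set (MvPolynomial (Fin (n + 1)) ℂ), (∀ p ∈ S, ∃ e ≤ d, p.IsHomogeneous e) →
        ∃ P ℓ : Fin c → MvPolynomial (Fin (N + 1)) ℂ,
          (∀ i, (P i).IsHomogeneous 2) ∧ (∀ i, (ℓ i).IsHomogeneous 1) ∧ SmoothCover P ∧
          (∀ x : Fin (n + 1) → ℂ, (∀ p ∈ S, eval x p = 0) →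
            ∀ i, eval (veronese m x) (P i) = eval (veronese m x) (ℓ i) ^ 2) ∧
          (∀ (E : Type) [Field E] [Algebra ℂ E] [IsFF ℂ E] (cp : Place ℂ E)
            (y : Fin (N + c + 1) → ℂ), y ≠ 0 →
            (¬ ∃ (x : Fin (n + 1) → ℂ) (c₀ : ℂ), x ≠ 0 ∧ c₀ ≠ 0 ∧ (∀ p ∈ S, eval x p = 0) ∧
              y ∘ hI N c = c₀ • veronese m x) →
            {φ : ℙ E (Fin (N + c + 1) → E) | ∃ (f : Fin (N + c + 1) → E) (hf : f ≠ 0),
              (∀ i, aeval f (coverForm P i) = 0) ∧ HasValue cp y f ∧
              φ = Projectivization.mk E f hf}.Finite) ∧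
          (∀ (L : Type) [Field L] [Algebra ℂ L] (w : ℕ) (y : Fin (N + c + 1) → L), 1 ≤ w →
            SubVar (coverForm P) L w y → (GeneralType ℂ L w ∧ PseudoGeomHyp ℂ y) ∨
              ∃ (ℓ' : Fin c → MvPolynomial (Fin (N + 1)) ℂ) (x : Fin (n + 1) → L) (c₀ : L),
                Signs ℓ ℓ' ∧ x ≠ 0 ∧ c₀ ≠ 0 ∧ (∀ p ∈ S, aeval x p = 0) ∧
                y ∘ hI N c = c₀ • veronese m x ∧
                ∀ i, y (xI N c i) = c₀ * aeval (veronese m x) (ℓ' i)) ∧
          ∀ G, IsForm G →
            (OnPgh (coverEqs P) G ↔ ∀ ℓ', Signs ℓ ℓ' → OnPgh S (onSheet m ℓ' G)) ∧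
            (OnSpecial (coverEqs P) G ↔ ∀ ℓ', Signs ℓ ℓ' → OnSpecial S (onSheet m ℓ' G))) ∧
    ∀ E : ℕ → Set ℕ, (∀ N, (E N).Infinite) →
      (Lang ↔
        ∀ (N c : ℕ) (P : Fin c → MvPolynomial (Fin (N + 1)) ℂ), c ∈ E N →
          (∀ i, (P i).IsHomogeneous 2) → SmoothCover P →
          (∀ G, IsForm G → (OnPgh (coverEqs P) G ↔ OnSpecial (coverEqs P) G)) ∧ NoComponent P) ∧
      (LangOne ↔
        ∀ (N c : ℕ) (P : Fin c → MvPolynomial (Fin (N + 1)) ℂ), c ∈ E N →
          (∀ i, (P i).IsHomogeneous 2) → SmoothCover P → NoComponent P) ∧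
      (LangTwo ↔
        ∀ (N c : ℕ) (P : Fin c → MvPolynomial (Fin (N + 1)) ℂ), c ∈ E N →
          (∀ i, (P i).IsHomogeneous 2) → SmoothCover P →
          ∀ G, IsForm G → OnPgh (coverEqs P) G → OnSpecial (coverEqs P) G) := by
  refine ⟨?_, fun E hE => ⟨?_, ?_, ?_⟩⟩
  · intro n d hn hd
    obtain ⟨N, m, hm, -, h⟩ := consA n d hn hd
    refine ⟨N, m, ⟨hm.deg, hm.inj, hm.surj⟩, fun c hc S hS => ?_⟩
    obtain ⟨P, ℓ, hsm, hg⟩ := h c hc S hS
    refine ⟨P, ℓ, hg.toC.homP, hg.toC.homL, hsm, fun x hx i => hg.toC.sub ℂ x hx i, ?_, ?_,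
      fun G hG => ⟨?_, ?_⟩⟩
    · intro E _ _ _ cp y hy hyn
      by_cases hyP : ∀ i, eval y (coverForm P i) = 0
      · obtain ⟨s, Z, hZ, hZ1, hZ2⟩ := hg.toC.cone
        have hyh : y ∘ hI N c ≠ 0 := Pool.Agent.U207.QC.base_ne hg.toC.homP hy hyP
        obtain ⟨t, ht⟩ : ∃ t, eval (y ∘ hI N c) (Z t) ≠ 0 := by
          by_contra hcon
          push Not at hcon
          exact hyn (hZ2 ℂ _ hyh hcon)
        have hfin := off_finite hg (E := E) cp hy (F := rename (hI N c) (Z t))
          ⟨2, (hZ t).rename_isHomogeneous⟩ (by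
            rintro L _ _ z ⟨x, c₀, hx, hc₀, hxS, hzx⟩
            rw [aeval_rename, hzx, Pool.Agent.N254.SQ.aeval_zero_of ⟨2, hZ t⟩ hc₀]
            exact hZ1 L x hxS t) (by rw [eval_rename]; exact ht)
        refine hfin.subset ?_
        rintro φ ⟨f, hf, hfP, hv, rfl⟩
        refine ⟨f, hf, ?_, hv, rfl⟩
        rintro _ ⟨i, rfl⟩
        exact hfP i
      · refine Set.Finite.subset Set.finite_empty ?_
        rintro φ ⟨f, hf, hfP, hv, rfl⟩
        exact hyP fun i => value_zero hy hf hv ⟨2, cover_hom hg.toC.homP i⟩ (hfP i)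
    · intro L _ _ w y hw hy
      by_cases hV : ∃ (x : Fin (n + 1) → L) (c₀ : L), x ≠ 0 ∧ c₀ ≠ 0 ∧ (∀ p ∈ S, aeval x p = 0) ∧
          y ∘ hI N c = c₀ • Pool.Agent.N254.SQ.ver m x
      · exact Or.inr (sheet_of hg.toC hy.mem hV)
      · left
        have hyP : ∀ p ∈ coverEqs P, aeval y p = 0 := by
          rintro _ ⟨i, rfl⟩
          exact hy.mem i
        refine ⟨?_, pgh_off hg hy.ne hyP hV⟩
        rcases hg.toC.special L w y hw ⟨hy.ne, fun p => hyP p p.2, hy.gen, hy.dim⟩ with h1 | h1
        · exact h1
        · exact absurd h1 hV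
    · have h1 := tr_oneA covA_pgh hg hG
      simp only [pgh_one] at h1
      exact h1
    · have h1 := tr_one covT_special hg.toC hG
      simp only [special_one] at h1
      exact h1
  · have h1 := one_iffA exc0_pgh covA_pgh hE
    simp only [pgh_one] at h1
    refine Iff.trans ?_ h1
    constructor
    · intro h n L _ _ w y hw hy
      rw [h n L w y hw hy, pgh_iff hw hy]
      simp only [pgh_one]
    · intro h n L _ _ w y hw hy
      rw [h n L w y hw hy, pgh_iff hw hy]
      simp only [pgh_one]
  · have h1 := one_halfA exc0_pgh covA_pgh hE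
    simp only [pgh_one] at h1
    refine Iff.trans ?_ h1
    constructor
    · intro h n L _ _ w y hw hy hgt
      have h2 := (pgh_iff hw hy).1 (h n L w y hw hy hgt)
      simpa only [pgh_one] using h2
    · intro h n L _ _ w y hw hy hgt
      rw [pgh_iff hw hy]
      simpa only [pgh_one] using h n L w y hw hy hgt
  · constructor
    · intro h N c P _ hP _ G hG hp L _ _ w y hw hy
      rcases hp L w y hw hy with h2 | h2
      · exact Or.inl (h (N + c) L w y hw
          ⟨hy.ne, fun p => absurd p.2 (Set.notMem_empty _), hy.gen, hy.dim⟩ h2)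
      · exact Or.inr h2
    · intro h n L _ _ w y hw hy hp
      rw [← log_one hy.ne w]
      refine eq_covA exc0_pgh covA_pgh clsC_one.cls hE (fun N c P hc hP hsm T hT G hG hcc => ?_)
        n {1} rfl L w y hw (gen_of_sub hy) (notin_one y) ((pgh_iff hw hy).1 hp)
      rw [Set.mem_singleton_iff] at hT
      subst hT
      rw [ren_one] at hcc ⊢
      rw [special_one]
      exact h N c P hc hP hsm G hG ((pgh_one _ G).1 hcc)

end Pool.Agent.Results.MP_5b1cbc_ag.QuadricCoversSuffice
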